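import Mathlib
import Pool.Agent.Lib.MP_bcad5b_nt.Small
import Pool.Agent.Lib.MP_bcad5b_nt.Seg
import Pool.Agent.Lib.MP_bcad5b_nt.Large

set_option autoImplicit false

namespace Pool.Agent.Results.MP_bcad5b_nt.OrdersLeExpSqrt

/-- For every positive integer `n`, the number of distinct element orders of the symmetric group
on `n` letters is at most `exp (sqrt n)`. -/
theorem result : ∀ n : ℕ, 0 < n →
    ((Set.range (fun σ : Equiv.Perm (Fin n) => orderOf σ)).ncard : ℝ) ≤
      Real.exp (Real.sqrt (n : ℝ)) := by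
  intro n _
  rcases le_or_gt n 1000 with h | h
  · exact Pool.Agent.Lib.MP_bcad5b_nt.small_case n h
  · rcases le_or_gt n 500000 with h2 | h2
    · exact Pool.Agent.Lib.MP_bcad5b_nt.mid_case n h.le (by omega)
    · exact Pool.Agent.Lib.MP_bcad5b_nt.large_case n h2.le

end Pool.Agent.Results.MP_bcad5b_nt.OrdersLeExpSqrt
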